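import Mathlib

/-!
# Traces on subquotients

`rt g B A` is the trace of the endomorphism induced by `g` on `B / A`.
-/

set_option autoImplicit false

namespace Pool.Agent.H1.AC

open Module

section ses

variable {F : Type*} [Field F]

/-- additivity of the trace in short exact sequences -/
theorem trace_ses {V W Q : Type*} [AddCommGroup V] [Module F V] [Module.Finite F V]
    [AddCommGroup W] [Module F W] [Module.Finite F W]
    [AddCommGroup Q] [Module F Q] [Module.Finite F Q]
    (f : V →ₗ[F] V) (fW : W →ₗ[F] W) (fQ : Q →ₗ[F] Q) (i : W →ₗ[F] V) (q : V →ₗ[F] Q)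
    (hi : Function.Injective i) (hq : Function.Surjective q)
    (hex : ∀ v, q v = 0 ↔ ∃ w, i w = v)
    (h1 : ∀ w, f (i w) = i (fW w)) (h2 : ∀ v, q (f v) = fQ (q v)) :
    LinearMap.trace F V f = LinearMap.trace F W fW + LinearMap.trace F Q fQ := by
  obtain ⟨s, hs⟩ := q.exists_rightInverse_of_surjective (LinearMap.range_eq_top.2 hq)
  have hs' : ∀ x, q (s x) = x := fun x => by
    have := LinearMap.congr_fun hs x
    simpa using this
  obtain ⟨p, hp⟩ := i.exists_leftInverse_of_injective (LinearMap.ker_eq_bot.2 hi)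
  have hp' : ∀ x, p (i x) = x := fun x => by
    have := LinearMap.congr_fun hp x
    simpa using this
  let p' : V →ₗ[F] W := p ∘ₗ (LinearMap.id - s ∘ₗ q)
  have hp2 : ∀ v, i (p' v) + s (q v) = v := by
    intro v
    have : q (v - s (q v)) = 0 := by rw [map_sub, hs', sub_self]
    obtain ⟨w, hw⟩ := (hex _).1 this
    have h3 : p' v = w := by
      change p (v - s (q v)) = w
      rw [← hw, hp']
    rw [h3, hw]
    abel
  have hp3 : ∀ w, p' (i w) = w := by
    intro w
    have h4 : q (i w) = 0 := (hex _).2 ⟨w, rfl⟩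
    change p (i w - s (q (i w))) = w
    rw [h4, map_zero, sub_zero, hp']
  have hf : f = (f ∘ₗ i) ∘ₗ p' + (f ∘ₗ s) ∘ₗ q := by
    ext v
    change f v = f (i (p' v)) + f (s (q v))
    rw [← map_add, hp2]
  have e1 : LinearMap.trace F V ((f ∘ₗ i) ∘ₗ p') = LinearMap.trace F W fW := by
    rw [LinearMap.trace_comp_comm']
    congr 1
    ext w
    change p' (f (i w)) = fW w
    rw [h1, hp3]
  have e2 : LinearMap.trace F V ((f ∘ₗ s) ∘ₗ q) = LinearMap.trace F Q fQ := by
    rw [LinearMap.trace_comp_comm']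
    congr 1
    ext x
    change q (f (s x)) = fQ x
    rw [h2, hs']
  rw [hf, map_add, e1, e2]

end ses

variable {F : Type*} [Field F] {E E' : Type*} [AddCommGroup E] [Module F E]
  [AddCommGroup E'] [Module F E']

/-- stability -/
def St (g : E →ₗ[F] E) (A : Submodule F E) : Prop := ∀ x ∈ A, g x ∈ A

/-- the induced endomorphism of `B / A` -/
noncomputable def im (g : E →ₗ[F] E) (B A : Submodule F E) (hB : St g B) (hA : St g A) :
    (B ⧸ A.comap B.subtype) →ₗ[F] (B ⧸ A.comap B.subtype) :=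
  Submodule.mapQ _ _ (g.restrict hB) fun _ hx => hA _ hx

open Classical in
/-- trace of `g` on `B / A` -/
noncomputable def rt (g : E →ₗ[F] E) (B A : Submodule F E) : F :=
  if h : St g B ∧ St g A then LinearMap.trace F _ (im g B A h.1 h.2) else 0

/-- `B / A` is finite-dimensional -/
def FD (B A : Submodule F E) : Prop := Module.Finite F (B ⧸ A.comap B.subtype)

theorem rt_def {g : E →ₗ[F] E} {B A : Submodule F E} (hB : St g B) (hA : St g A) :
    rt g B A = LinearMap.trace F _ (im g B A hB hA) := by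
  unfold rt
  rw [dif_pos ⟨hB, hA⟩]

/-- `B / A` from a surjection `φ` of `B` with kernel `A` -/
noncomputable def eqv {B A : Submodule F E} {V : Type*} [AddCommGroup V] [Module F V]
    (φ : B →ₗ[F] V) (ker : ∀ x, φ x = 0 ↔ x.1 ∈ A) (surj : Function.Surjective φ) :
    (B ⧸ A.comap B.subtype) ≃ₗ[F] V :=
  (Submodule.quotEquivOfEq _ _ (by ext x; exact (ker x).symm)).trans
    (φ.quotKerEquivOfSurjective surj)

theorem eqv_mk {B A : Submodule F E} {V : Type*} [AddCommGroup V] [Module F V]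
    (φ : B →ₗ[F] V) (ker : ∀ x, φ x = 0 ↔ x.1 ∈ A) (surj : Function.Surjective φ) (x : B) :
    eqv φ ker surj (Submodule.Quotient.mk x) = φ x := by
  unfold eqv
  rfl

theorem FD_of {B A : Submodule F E} {V : Type*} [AddCommGroup V] [Module F V] [Module.Finite F V]
    (φ : B →ₗ[F] V) (ker : ∀ x, φ x = 0 ↔ x.1 ∈ A) (surj : Function.Surjective φ) : FD B A :=
  Module.Finite.equiv (eqv φ ker surj).symm

theorem rt_eq {g : E →ₗ[F] E} {B A : Submodule F E} (hB : St g B) (hA : St g A)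
    {V : Type*} [AddCommGroup V] [Module F V]
    (φ : B →ₗ[F] V) (ker : ∀ x, φ x = 0 ↔ x.1 ∈ A) (surj : Function.Surjective φ)
    (f : V →ₗ[F] V) (comm : ∀ x y : B, y.1 = g x.1 → φ y = f (φ x)) :
    rt g B A = LinearMap.trace F V f := by
  rw [rt_def hB hA, ← LinearMap.trace_conj' _ (eqv φ ker surj)]
  congr 1
  ext v
  obtain ⟨x, rfl⟩ := surj v
  rw [LinearEquiv.conj_apply_apply]
  have h1 : (eqv φ ker surj).symm (φ x) = Submodule.Quotient.mk x := by
    rw [LinearEquiv.symm_apply_eq, eqv_mk]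
  rw [h1]
  change eqv φ ker surj (Submodule.Quotient.mk (g.restrict hB x)) = _
  rw [eqv_mk]
  exact comm x _ rfl

/-- comparison of two subquotients -/
theorem rt_congr {g : E →ₗ[F] E} {B A : Submodule F E} (hB : St g B) (hA : St g A)
    {g' : E' →ₗ[F] E'} {B' A' : Submodule F E'} (hB' : St g' B') (hA' : St g' A')
    (φ : E →ₗ[F] E') (h1 : ∀ x ∈ B, φ x ∈ B') (ker : ∀ x ∈ B, φ x ∈ A' ↔ x ∈ A)
    (surj : ∀ y ∈ B', ∃ x ∈ B, y - φ x ∈ A') (comm : ∀ x ∈ B, φ (g x) - g' (φ x) ∈ A') :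
    rt g B A = rt g' B' A' := by
  rw [rt_def hB' hA']
  refine rt_eq hB hA ((A'.comap B'.subtype).mkQ ∘ₗ φ.restrict h1) ?_ ?_ _ ?_
  · intro x
    rw [LinearMap.comp_apply, Submodule.mkQ_apply, Submodule.Quotient.mk_eq_zero]
    exact ker x.1 x.2
  · intro v
    obtain ⟨y, rfl⟩ := Submodule.mkQ_surjective _ v
    obtain ⟨x, hx, hxy⟩ := surj y.1 y.2
    refine ⟨⟨x, hx⟩, ?_⟩
    rw [LinearMap.comp_apply, Submodule.mkQ_apply, Submodule.mkQ_apply, eq_comm,
      Submodule.Quotient.eq]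
    exact hxy
  · intro x y hxy
    rw [LinearMap.comp_apply, LinearMap.comp_apply, Submodule.mkQ_apply, Submodule.mkQ_apply]
    change _ = Submodule.Quotient.mk (g'.restrict hB' (φ.restrict h1 x))
    rw [Submodule.Quotient.eq]
    change φ y.1 - g' (φ x.1) ∈ A'
    rw [hxy]
    exact comm x.1 x.2

theorem FD_congr {B A : Submodule F E} {B' A' : Submodule F E'} (h : FD B' A')
    (φ : E →ₗ[F] E') (h1 : ∀ x ∈ B, φ x ∈ B') (ker : ∀ x ∈ B, φ x ∈ A' ↔ x ∈ A) :
    FD B A := by
  unfold FD at h ⊢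
  let ψ : B →ₗ[F] (B' ⧸ A'.comap B'.subtype) := (A'.comap B'.subtype).mkQ ∘ₗ φ.restrict h1
  have hψ : ∀ x, ψ x = 0 ↔ x.1 ∈ A := by
    intro x
    change (A'.comap B'.subtype).mkQ (φ.restrict h1 x) = 0 ↔ _
    rw [Submodule.mkQ_apply, Submodule.Quotient.mk_eq_zero]
    exact ker x.1 x.2
  refine FD_of (V := LinearMap.range ψ) ψ.rangeRestrict (fun x => ?_) ψ.surjective_rangeRestrict
  rw [← hψ x]
  exact Subtype.ext_iff

/-- monotonicity of finite-dimensionality -/
theorem FD.mono {B A B' A' : Submodule F E} (h : FD B A) (hB : B' ≤ B) (hA : A ≤ A') :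
    FD B' A' := by
  have h1 : FD B' A := FD_congr h LinearMap.id (fun x hx => hB hx) fun x _ => Iff.rfl
  unfold FD at h1 ⊢
  exact Module.Finite.of_surjective
    (Submodule.factor (p := A.comap B'.subtype) (p' := A'.comap B'.subtype)
      fun x hx => hA hx) (Submodule.factor_surjective _)

/-- additivity -/
theorem rt_add {g : E →ₗ[F] E} {C B A : Submodule F E} (hC : St g C) (hB : St g B) (hA : St g A)
    (hAB : A ≤ B) (hBC : B ≤ C) (h : FD C A) : rt g C A = rt g C B + rt g B A := by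
  have h1 : FD C B := h.mono le_rfl hAB
  have h2 : FD B A := h.mono hBC le_rfl
  rw [rt_def hC hA, rt_def hC hB, rt_def hB hA, add_comm]
  unfold FD at h h1 h2
  let i : (B ⧸ A.comap B.subtype) →ₗ[F] (C ⧸ A.comap C.subtype) :=
    Submodule.mapQ _ _ (Submodule.inclusion hBC) fun x hx => hx
  let q : (C ⧸ A.comap C.subtype) →ₗ[F] (C ⧸ B.comap C.subtype) :=
    Submodule.factor fun x hx => hAB hx
  refine trace_ses _ _ _ i q ?_ (Submodule.factor_surjective _) ?_ ?_ ?_
  · rw [injective_iff_map_eq_zero]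
    intro v hv
    obtain ⟨x, rfl⟩ := Submodule.mkQ_surjective _ v
    change Submodule.Quotient.mk (Submodule.inclusion hBC x) = 0 at hv
    rw [Submodule.Quotient.mk_eq_zero] at hv
    rw [Submodule.mkQ_apply, Submodule.Quotient.mk_eq_zero]
    exact hv
  · intro v
    obtain ⟨x, rfl⟩ := Submodule.mkQ_surjective _ v
    change Submodule.Quotient.mk x = 0 ↔ _
    rw [Submodule.Quotient.mk_eq_zero]
    constructor
    · intro hx
      exact ⟨Submodule.Quotient.mk ⟨x.1, hx⟩, rfl⟩
    · rintro ⟨w, hw⟩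
      obtain ⟨y, rfl⟩ := Submodule.mkQ_surjective _ w
      change Submodule.Quotient.mk (Submodule.inclusion hBC y) = Submodule.Quotient.mk x at hw
      rw [Submodule.Quotient.eq] at hw
      change y.1 - x.1 ∈ A at hw
      change x.1 ∈ B
      have : x.1 = y.1 - (y.1 - x.1) := by abel
      rw [this]
      exact B.sub_mem y.2 (hAB hw)
  · intro v
    obtain ⟨x, rfl⟩ := Submodule.mkQ_surjective _ v
    rfl
  · intro v
    obtain ⟨x, rfl⟩ := Submodule.mkQ_surjective _ v
    rfl

theorem rt_self {g : E →ₗ[F] E} {B A : Submodule F E} (hB : St g B) (hA : St g A) (hBA : B ≤ A) :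
    rt g B A = 0 := by
  have h : rt g B A = LinearMap.trace F (Fin 0 → F) 0 := by
    refine rt_eq hB hA 0 (fun x => ⟨fun _ => hBA x.2, fun _ => rfl⟩) (fun v => ⟨0, ?_⟩) _ ?_
    · exact Subsingleton.elim _ _
    · intro x y _
      rfl
  rw [h, map_zero]

/-- second isomorphism theorem -/
theorem rt_sup {g : E →ₗ[F] E} {P Q : Submodule F E} (hP : St g P) (hQ : St g Q) :
    rt g (P ⊔ Q) Q = rt g P (P ⊓ Q) := by
  have hPQ : St g (P ⊔ Q) := by
    intro x hx
    obtain ⟨p, hp, q, hq, rfl⟩ := Submodule.mem_sup.1 hx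
    rw [map_add]
    exact Submodule.add_mem_sup (hP p hp) (hQ q hq)
  symm
  refine rt_congr hP (show St g (P ⊓ Q) from fun x hx => ⟨hP x hx.1, hQ x hx.2⟩) hPQ hQ
    LinearMap.id
    (fun x hx => Submodule.mem_sup_left hx) (fun x hx => ⟨fun h => ⟨hx, h⟩, fun h => h.2⟩) ?_ ?_
  · intro y hy
    obtain ⟨p, hp, q, hq, rfl⟩ := Submodule.mem_sup.1 hy
    exact ⟨p, hp, by simpa using hq⟩
  · intro x _
    simp

end Pool.Agent.H1.AC
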