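import Pool.Agent.H1.AC.Rt
import Pool.Agent.H47.ST.TKb

/-!
# Supertraces: complexes without relative cohomology, one module
-/

set_option autoImplicit false

namespace Pool.Agent.H1.AC

open Pool.Agent.H47.ST Finset

variable {F : Type*} [Field F] {E : Type*} [AddCommGroup E] [Module F E]

/-- supertrace of `g` on the graded subquotient `B / A` (degrees below `J`) -/
noncomputable def st (g : E →ₗ[F] E) (B A : ℕ → Submodule F E) (J : ℕ) : F :=
  ∑ j ∈ range J, (-1 : F) ^ j * rt g (B j) (A j)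

theorem tele (s : ℕ → F) (J : ℕ) :
    ∑ j ∈ range J, (-1 : F) ^ j * (s (j + 1) + s j) = s 0 - (-1) ^ J * s J := by
  induction J with
  | zero => simp
  | succ J ih => rw [sum_range_succ, ih, pow_succ]; ring

/-- additivity of the supertrace -/
theorem st_add {g : E →ₗ[F] E} {C B A : ℕ → Submodule F E} (hC : ∀ j, St g (C j))
    (hB : ∀ j, St g (B j)) (hA : ∀ j, St g (A j)) (hAB : ∀ j, A j ≤ B j)
    (hBC : ∀ j, B j ≤ C j) (fd : ∀ j, FD (C j) (A j)) (J : ℕ) :
    st g C A J = st g C B J + st g B A J := by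
  unfold st
  rw [← sum_add_distrib]
  refine sum_congr rfl fun j _ => ?_
  rw [rt_add (hC j) (hB j) (hA j) (hAB j) (hBC j) (fd j)]
  ring

/-- the supertrace vanishes if all the relative cohomology vanishes -/
theorem st_HK {d g : E →ₗ[F] E} (dd : ∀ x, d (d x) = 0) (gd : ∀ x, g (d x) = d (g x))
    {B A : ℕ → Submodule F E} (hBd : ∀ j, ∀ x ∈ B j, d x ∈ B (j + 1))
    (hAd : ∀ j, ∀ x ∈ A j, d x ∈ A (j + 1)) (hB : ∀ j, St g (B j)) (hA : ∀ j, St g (A j))
    (hAB : ∀ j, A j ≤ B j) (fd : ∀ j, FD (B j) (A j)) (J : ℕ) (hJ : ∀ j, J ≤ j → B j ≤ A j)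
    (h : ∀ j < J, HK d B A j 0) : st g B A J = 0 := by
  have h' : ∀ j < J, ∀ x ∈ B j, d x ∈ A (j + 1) → ∃ y ∈ pr B j, x - d y ∈ A j := by
    intro j hj
    exact RK_zero.1 (h j hj)
  let S : ℕ → Submodule F E := fun j => B j ⊓ (A (j + 1)).comap d
  have hS : ∀ j, St g (S j) := by
    intro j x hx
    refine ⟨hB j x hx.1, ?_⟩
    change d (g x) ∈ A (j + 1)
    rw [← gd]
    exact hA (j + 1) _ hx.2
  have hAS : ∀ j, A j ≤ S j := fun j x hx => ⟨hAB j hx, hAd j x hx⟩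
  have hSB : ∀ j, S j ≤ B j := fun j x hx => hx.1
  have e1 : ∀ j, rt g (B j) (S j) = rt g (S (j + 1)) (A (j + 1)) := by
    intro j
    refine rt_congr (hB j) (hS j) (hS (j + 1)) (hA (j + 1)) d ?_ ?_ ?_ ?_
    · intro x hx
      refine ⟨hBd j x hx, ?_⟩
      change d (d x) ∈ A (j + 1 + 1)
      rw [dd]
      exact Submodule.zero_mem _
    · intro x hx
      exact ⟨fun h2 => ⟨hx, h2⟩, fun h2 => h2.2⟩
    · intro y hy
      rcases lt_or_ge (j + 1) J with h3 | h3
      · obtain ⟨x, hx, hxy⟩ := h' (j + 1) h3 y hy.1 hy.2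
        exact ⟨x, hx, hxy⟩
      · exact ⟨0, (B j).zero_mem, by simpa using hJ _ h3 hy.1⟩
    · intro x _
      rw [gd, sub_self]
      exact Submodule.zero_mem _
  have e2 : st g B A J =
      ∑ j ∈ range J, (-1 : F) ^ j * (rt g (S (j + 1)) (A (j + 1)) + rt g (S j) (A j)) := by
    unfold st
    refine sum_congr rfl fun j _ => ?_
    rw [rt_add (hB j) (hS j) (hA j) (hAS j) (hSB j) (fd j), e1]
  have e3 := tele (fun j => rt g (S j) (A j)) J
  rw [e2, e3]
  have e5 : rt g (S J) (A J) = 0 := rt_self (hS J) (hA J) ((hSB J).trans (hJ J le_rfl))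
  rcases Nat.eq_zero_or_pos J with h0 | h0
  · subst h0
    rw [e5]
    simp
  · have e4 : rt g (S 0) (A 0) = 0 := by
      refine rt_self (hS 0) (hA 0) fun x hx => ?_
      obtain ⟨y, hy, hxy⟩ := h' 0 h0 x hx.1 hx.2
      have hy0 : y = 0 := by simpa [pr] using hy
      subst hy0
      simpa using hxy
    rw [e4, e5]
    ring

/-- one module, `τ ^ (N + 1) = 0` and `ker τ = im τ ^ N` -/
theorem rt_one {g τ : E →ₗ[F] E} (gt : ∀ x, g (τ x) = τ (g x)) {B A : Submodule F E}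
    (hBt : St τ B) (hAt : St τ A) (hB : St g B) (hA : St g A) (hAB : A ≤ B) (fd : FD B A)
    (N : ℕ) (hN : ∀ x ∈ B, (τ ^ (N + 1)) x ∈ A)
    (hex : ∀ x ∈ B, τ x ∈ A → ∃ y ∈ B, x - (τ ^ N) y ∈ A) :
    rt g B A = ((N + 1 : ℕ) : F) * rt g (B ⊓ A.comap τ) A := by
  have hBi : ∀ i : ℕ, ∀ x ∈ B, (τ ^ i) x ∈ B := by
    intro i
    induction i with
    | zero => intro x hx; simpa using hx
    | succ i ih => intro x hx; rw [pow_succ']; exact hBt _ (ih x hx)
  have gi : ∀ i : ℕ, ∀ x, g ((τ ^ i) x) = (τ ^ i) (g x) := by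
    intro i
    induction i with
    | zero => intro x; simp
    | succ i ih =>
      intro x
      rw [pow_succ']
      change g (τ ((τ ^ i) x)) = τ ((τ ^ i) (g x))
      rw [gt, ih]
  let P : ℕ → Submodule F E := fun i => B.map (τ ^ i) ⊔ A
  have mP : ∀ i x, x ∈ P i ↔ ∃ b ∈ B, ∃ a ∈ A, (τ ^ i) b + a = x := by
    intro i x
    change x ∈ B.map (τ ^ i) ⊔ A ↔ _
    rw [Submodule.mem_sup]
    constructor
    · rintro ⟨y, hy, a, ha, rfl⟩
      obtain ⟨b, hb, rfl⟩ := Submodule.mem_map.1 hy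
      exact ⟨b, hb, a, ha, rfl⟩
    · rintro ⟨b, hb, a, ha, rfl⟩
      exact ⟨_, Submodule.mem_map.2 ⟨b, hb, rfl⟩, a, ha, rfl⟩
  have hPB : ∀ i, P i ≤ B := by
    intro i x hx
    obtain ⟨b, hb, a, ha, rfl⟩ := (mP i x).1 hx
    exact B.add_mem (hBi i b hb) (hAB ha)
  have hAP : ∀ i, A ≤ P i := fun i => le_sup_right
  have hP : ∀ i, St g (P i) := by
    intro i x hx
    obtain ⟨b, hb, a, ha, rfl⟩ := (mP i x).1 hx
    refine (mP i _).2 ⟨g b, hB b hb, g a, hA a ha, ?_⟩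
    rw [map_add, gi]
  let K : Submodule F E := B ⊓ A.comap τ
  have hK : St g K := by
    intro x hx
    refine ⟨hB x hx.1, ?_⟩
    change τ (g x) ∈ A
    rw [← gt]
    exact hA _ hx.2
  have hAK : A ≤ K := fun x hx => ⟨hAB hx, hAt x hx⟩
  have hKP : ∀ i ≤ N, K ≤ P i := by
    intro i hi x hx
    obtain ⟨y, hy, hxy⟩ := hex x hx.1 hx.2
    refine (mP i x).2 ⟨(τ ^ (N - i)) y, hBi _ _ hy, x - (τ ^ N) y, hxy, ?_⟩
    have : (τ ^ i) ((τ ^ (N - i)) y) = (τ ^ N) y := by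
      have h2 : τ ^ N = τ ^ i * τ ^ (N - i) := by rw [← pow_add]; congr 1; omega
      rw [h2]
      rfl
    rw [this]
    abel
  have step : ∀ i ≤ N, rt g (P i) A = rt g (P (i + 1)) A + rt g K A := by
    intro i hi
    rw [rt_add (hP i) hK hA hAK (hKP i hi) (fd.mono (hPB i) le_rfl)]
    congr 1
    refine rt_congr (hP i) hK (hP (i + 1)) hA τ ?_ ?_ ?_ ?_
    · intro x hx
      obtain ⟨b, hb, a, ha, rfl⟩ := (mP i x).1 hx
      refine (mP (i + 1) _).2 ⟨b, hb, τ a, hAt a ha, ?_⟩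
      rw [map_add, pow_succ']
      rfl
    · intro x hx
      exact ⟨fun h2 => ⟨hPB i hx, h2⟩, fun h2 => h2.2⟩
    · intro y hy
      obtain ⟨b, hb, a, ha, rfl⟩ := (mP (i + 1) y).1 hy
      refine ⟨(τ ^ i) b, (mP i _).2 ⟨b, hb, 0, A.zero_mem, by rw [add_zero]⟩, ?_⟩
      have : (τ ^ (i + 1)) b = τ ((τ ^ i) b) := by
        rw [pow_succ']
        rfl
      rw [this, add_sub_cancel_left]
      exact ha
    · intro x _
      rw [gt, sub_self]
      exact A.zero_mem
  have key : ∀ m i : ℕ, m + i = N + 1 → rt g (P i) A = (m : F) * rt g K A := by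
    intro m
    induction m with
    | zero =>
      intro i hi
      have : i = N + 1 := by omega
      subst this
      rw [rt_self (hP _) hA]
      · simp
      · intro x hx
        obtain ⟨b, hb, a, ha, rfl⟩ := (mP _ x).1 hx
        exact A.add_mem (hN b hb) ha
    | succ m ih =>
      intro i hi
      rw [step i (by omega), ih (i + 1) (by omega)]
      push_cast
      ring
  have h0 : P 0 = B := by
    apply le_antisymm (hPB 0)
    intro x hx
    exact (mP 0 x).2 ⟨x, hx, 0, A.zero_mem, by simp⟩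
  rw [← h0, key (N + 1) 0 (by omega), h0]

end Pool.Agent.H1.AC
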