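import Pool.Agent.H1.AC.T3a

/-!
# The cone `E × (ZMod r → E)`: operators
-/

set_option autoImplicit false

namespace Pool.Agent.H1.AC

open Pool.Agent.H47.ST Finset

variable {F : Type*} [Field F] {E : Type*} [AddCommGroup E] [Module F E]

/-- the space of the cone -/
abbrev JE (r : ℕ) (E : Type*) := E × (ZMod r → E)

/-- the differential of the cone -/
def dJ (r : ℕ) (d : E →ₗ[F] E) : JE r E →ₗ[F] JE r E :=
  (d.comp (LinearMap.fst F E (ZMod r → E))).prod 0

/-- the shift of the cone -/
def TJ (r : ℕ) (T : E →ₗ[F] E) : JE r E →ₗ[F] JE r E :=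
  T.prodMap (LinearMap.funLeft F E fun j : ZMod r => j + 1)

/-- the endomorphism `g` on the cone -/
def gJ (r : ℕ) (g : E →ₗ[F] E) : JE r E →ₗ[F] JE r E :=
  g.prodMap (LinearMap.pi fun j => g.comp (LinearMap.proj j))

/-- the embedding of a module in the coinduced module -/
noncomputable def io (r : ℕ) (T : E →ₗ[F] E) : E →ₗ[F] (ZMod r → E) :=
  LinearMap.pi fun j => T ^ j.val

/-- the norm -/
noncomputable def nu (r : ℕ) (T : E →ₗ[F] E) : E →ₗ[F] E := ∑ i ∈ range r, T ^ i

/-- `τ` and `ν` on the coinduced module -/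
noncomputable def thJ (F : Type*) [Field F] (r : ℕ) [NeZero r] (E : Type*) [AddCommGroup E]
    [Module F E] (k : ℕ) : (ZMod r → E) →ₗ[F] (ZMod r → E) :=
  if Even k then (LinearMap.funLeft F E fun j : ZMod r => j + 1) - 1
  else LinearMap.pi fun _ => ∑ i, LinearMap.proj i

variable {r : ℕ} [NeZero r]

theorem thJ_even {k : ℕ} (hk : Even k) (h : ZMod r → E) (j : ZMod r) :
    thJ F r E k h j = h (j + 1) - h j := by
  unfold thJ
  rw [if_pos hk]
  rfl

theorem thJ_odd {k : ℕ} (hk : ¬ Even k) (h : ZMod r → E) (j : ZMod r) :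
    thJ F r E k h j = ∑ i, h i := by
  unfold thJ
  rw [if_neg hk]
  simp

theorem sum_zmod (h : ZMod r → E) (j : ZMod r) :
    ∑ i ∈ range r, h (j + (i : ZMod r)) = ∑ i, h i := by
  rw [← Equiv.sum_comp (Equiv.addLeft j) h]
  refine Finset.sum_bij' (fun i _ => (i : ZMod r)) (fun i _ => i.val) ?_ ?_ ?_ ?_ ?_
  · intro i _
    exact mem_univ _
  · intro i _
    exact mem_range.2 (ZMod.val_lt i)
  · intro i hi
    exact ZMod.val_natCast_of_lt (mem_range.1 hi)
  · intro i _
    exact ZMod.natCast_zmod_val i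
  · intro i _
    rfl

theorem TJ_pow (T : E →ₗ[F] E) (i : ℕ) (x : JE r E) :
    (TJ r T ^ i) x = ((T ^ i) x.1, fun j => x.2 (j + (i : ZMod r))) := by
  induction i with
  | zero => simp
  | succ i ih =>
    rw [pow_succ']
    change TJ r T ((TJ r T ^ i) x) = _
    rw [ih]
    change (T ((T ^ i) x.1), fun j => x.2 (j + 1 + (i : ZMod r))) = _
    rw [pow_succ']
    refine Prod.ext rfl ?_
    funext j
    change x.2 (j + 1 + (i : ZMod r)) = x.2 (j + ((i + 1 : ℕ) : ZMod r))
    push_cast
    ring_nf

theorem nuJ (T : E →ₗ[F] E) (x : JE r E) :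
    nu r (TJ r T) x = (nu r T x.1, fun _ => ∑ i, x.2 i) := by
  unfold nu
  rw [LinearMap.sum_apply, LinearMap.sum_apply]
  refine Prod.ext ?_ ?_
  · rw [Prod.fst_sum]
    exact sum_congr rfl fun i _ => by rw [TJ_pow]
  · rw [Prod.snd_sum]
    funext j
    rw [Finset.sum_apply, ← sum_zmod x.2 j]
    exact sum_congr rfl fun i _ => by rw [TJ_pow]

theorem theJ (T : E →ₗ[F] E) (k : ℕ) (x : JE r E) :
    the (TJ r T - 1) (nu r (TJ r T)) k x = (the (T - 1) (nu r T) k x.1, thJ F r E k x.2) := by
  unfold the thJ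
  split_ifs with h
  · rfl
  · rw [nuJ]
    refine Prod.ext rfl ?_
    funext j
    simp

theorem io_apply (T : E →ₗ[F] E) (m : E) (j : ZMod r) : io r T m j = (T ^ j.val) m := rfl

theorem io_zero (T : E →ₗ[F] E) (m : E) : io r T m 0 = m := by
  rw [io_apply, ZMod.val_zero]
  rfl

theorem io_succ {T : E →ₗ[F] E} (Tr : T ^ r = 1) (m : E) (j : ZMod r) :
    io r T m (j + 1) = io r T (T m) j := by
  rw [io_apply, io_apply]
  have h1 : T ^ (j + 1).val = T ^ (j.val + 1) := by
    rw [ZMod.val_add, pow_eq_pow_mod (j.val + 1) Tr, ZMod.val_one_eq_one_mod]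
    congr 1
    rw [Nat.add_mod_mod]
  rw [h1, pow_succ]
  rfl

theorem T_nu {T : E →ₗ[F] E} (Tr : T ^ r = 1) (x : E) : T (nu r T x) = nu r T x := by
  have h : T * nu r T = nu r T := by
    unfold nu
    have h1 := mul_geom_sum T r
    rw [Tr, sub_self, sub_mul, one_mul, sub_eq_zero] at h1
    exact h1
  exact LinearMap.congr_fun h x

theorem pow_nu {T : E →ₗ[F] E} (Tr : T ^ r = 1) (i : ℕ) (x : E) :
    (T ^ i) (nu r T x) = nu r T x := by
  induction i with
  | zero => simp
  | succ i ih =>
    rw [pow_succ]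
    change (T ^ i) (T (nu r T x)) = _
    rw [T_nu Tr, ih]

theorem nu_T {T : E →ₗ[F] E} (Tr : T ^ r = 1) (x : E) : nu r T (T x) = nu r T x := by
  have h : nu r T * T = nu r T := by
    unfold nu
    have h1 := geom_sum_mul T r
    rw [Tr, sub_self, mul_sub, mul_one, sub_eq_zero] at h1
    exact h1
  exact LinearMap.congr_fun h x

/-- the embedding is equivariant -/
theorem thJ_io {T : E →ₗ[F] E} (Tr : T ^ r = 1) (k : ℕ) (m : E) (j : ZMod r) :
    thJ F r E k (io r T m) j = io r T (the (T - 1) (nu r T) k m) j := by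
  by_cases hk : Even k
  · rw [thJ_even hk, io_succ Tr]
    unfold the
    rw [if_pos hk]
    change _ = io r T (T m - m) j
    rw [map_sub]
    rfl
  · rw [thJ_odd hk, ← sum_zmod (io r T m) 0]
    unfold the
    rw [if_neg hk, io_apply, pow_nu Tr]
    unfold nu
    rw [LinearMap.sum_apply]
    refine sum_congr rfl fun i hi => ?_
    rw [zero_add, io_apply, ZMod.val_natCast_of_lt (mem_range.1 hi)]

/-- values in a submodule -/
theorem thJ_mem {A : Submodule F E} (k : ℕ) {z : ZMod r → E} (hz : ∀ j, z j ∈ A) (j : ZMod r) :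
    thJ F r E k z j ∈ A := by
  by_cases hk : Even k
  · rw [thJ_even hk]
    exact A.sub_mem (hz _) (hz _)
  · rw [thJ_odd hk]
    exact A.sum_mem fun i _ => hz i

theorem thJ_thJ (k : ℕ) (z : ZMod r → E) (j : ZMod r) :
    thJ F r E (k + 1) (thJ F r E k z) j = 0 := by
  by_cases hk : Even k
  · rw [thJ_odd (by rw [Nat.even_add_one]; exact not_not.2 hk)]
    simp only [thJ_even hk]
    rw [sum_sub_distrib, sub_eq_zero]
    exact Equiv.sum_comp (Equiv.addRight (1 : ZMod r)) z
  · rw [thJ_even (by rw [Nat.even_add_one]; exact hk), thJ_odd hk, thJ_odd hk, sub_self]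

/-- the coinduced module is free -/
theorem thJ_free {A B : Submodule F E} (k : ℕ) {z : ZMod r → E} (hz : ∀ j, z j ∈ B)
    (h : ∀ j, thJ F r E k z j ∈ A) :
    ∃ y : ZMod r → E, (∀ j, y j ∈ B) ∧ ∀ j, z j - thJ F r E (k + 1) y j ∈ A := by
  by_cases hk : Even k
  · have hk1 : ¬ Even (k + 1) := by rw [Nat.even_add_one]; exact not_not.2 hk
    have h1 : ∀ n : ℕ, z (n : ZMod r) - z 0 ∈ A := by
      intro n
      induction n with
      | zero => simp
      | succ n ih =>
        have h2 := h (n : ZMod r)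
        rw [thJ_even hk] at h2
        have h3 := A.add_mem h2 ih
        have h4 : z ((n : ZMod r) + 1) - z (n : ZMod r) + (z (n : ZMod r) - z 0) =
            z ((n + 1 : ℕ) : ZMod r) - z 0 := by
          push_cast
          abel
        rwa [h4] at h3
    refine ⟨Pi.single 0 (z 0), ?_, ?_⟩
    · intro j
      by_cases hj : j = 0
      · subst hj
        rw [Pi.single_eq_same]
        exact hz 0
      · rw [Pi.single_eq_of_ne hj]
        exact B.zero_mem
    · intro j
      rw [thJ_odd hk1]
      have h5 : ∑ i, (Pi.single (0 : ZMod r) (z 0) : ZMod r → E) i = z 0 := by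
        rw [Finset.sum_eq_single (0 : ZMod r)]
        · rw [Pi.single_eq_same]
        · intro b _ hb
          exact Pi.single_eq_of_ne hb _
        · intro h6
          exact absurd (mem_univ _) h6
      rw [h5]
      have h7 := h1 j.val
      rwa [ZMod.natCast_zmod_val] at h7
  · have hk1 : Even (k + 1) := by rw [Nat.even_add_one]; exact hk
    refine ⟨fun j => ∑ i ∈ range j.val, z (i : ZMod r), ?_, ?_⟩
    · intro j
      exact B.sum_mem fun i _ => hz _
    · intro j
      rw [thJ_even hk1]
      have hr : 0 < r := NeZero.pos r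
      have hj : j.val < r := ZMod.val_lt j
      have hv : (j + 1).val = (j.val + 1) % r := by
        rw [ZMod.val_add, ZMod.val_one_eq_one_mod, Nat.add_mod_mod]
      rcases Nat.lt_or_ge (j.val + 1) r with h1 | h1
      · have h2 : (j + 1).val = j.val + 1 := by rw [hv, Nat.mod_eq_of_lt h1]
        change z j - (∑ i ∈ range (j + 1).val, z (i : ZMod r) -
          ∑ i ∈ range j.val, z (i : ZMod r)) ∈ A
        rw [h2, sum_range_succ, ZMod.natCast_zmod_val]
        have : z j - (∑ i ∈ range j.val, z (i : ZMod r) + z j -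
            ∑ i ∈ range j.val, z (i : ZMod r)) = 0 := by abel
        rw [this]
        exact A.zero_mem
      · have h3 : j.val + 1 = r := by omega
        have h2 : (j + 1).val = 0 := by rw [hv, h3, Nat.mod_self]
        change z j - (∑ i ∈ range (j + 1).val, z (i : ZMod r) -
          ∑ i ∈ range j.val, z (i : ZMod r)) ∈ A
        rw [h2]
        have h4 := h j
        rw [thJ_odd hk, ← sum_zmod z 0] at h4
        have h5 : ∑ i ∈ range r, z (0 + (i : ZMod r)) =
            ∑ i ∈ range j.val, z (i : ZMod r) + z j := by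
          have h6 : range r = range (j.val + 1) := by rw [h3]
          rw [h6, sum_range_succ]
          simp only [zero_add]
          rw [ZMod.natCast_zmod_val]
        rw [h5] at h4
        have : z j - (∑ i ∈ range 0, z (i : ZMod r) - ∑ i ∈ range j.val, z (i : ZMod r)) =
            ∑ i ∈ range j.val, z (i : ZMod r) + z j := by
          rw [sum_range_zero]
          abel
        rw [this]
        exact h4

/-- the norm in characteristic `r` -/
theorem nu_eq (hr : r.Prime) [CharP F r] (T : E →ₗ[F] E) : nu r T = (T - 1) ^ (r - 1) := by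
  have h : (∑ i ∈ range r, (Polynomial.X : Polynomial F) ^ i) = (Polynomial.X - 1) ^ (r - 1) := by
    have := Fact.mk hr
    have h1 : (Polynomial.X - 1 : Polynomial F) ≠ 0 := by
      have := Polynomial.X_sub_C_ne_zero (1 : F)
      rwa [Polynomial.C_1] at this
    apply mul_left_cancel₀ h1
    rw [mul_geom_sum, ← pow_succ', Nat.sub_add_cancel hr.one_le]
    have h3 := sub_pow_char (p := r) (Polynomial.X : Polynomial F) 1
    rw [h3, one_pow]
  have h2 := congrArg (Polynomial.aeval T) h
  rw [map_sum, map_pow, map_sub, Polynomial.aeval_X, map_one] at h2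
  simp only [map_pow, Polynomial.aeval_X] at h2
  exact h2

end Pool.Agent.H1.AC
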